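import Pool.Agent.Q234.KT.All

/-!
# Polynomial bond dimension for all interactions near a magnetic field

Qubits on the torus. Let `minusX n` be the interaction `- X_(0,0)` (the spin flip at one site) on the `n × n` box,
so that `ham (minusX n) L = - ∑_u X_u`. For every `n` and every `κ > 0` there are `δ, C > 0` such that for EVERY
Hermitian interaction `h` on the `n × n` box with entries within `δ` of those of `minusX n`, for all `L ≥ n`,
the Hamiltonian `ham h L` has a unique ground state with a gap of at least `1`, and for all `0 < ε ≤ 1` there is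
a PEPS of bond dimension at most `C (L / ε)^κ` within `ε` of the unit ground state. (For `n ≤ L` the box does not
overlap itself on the torus.)
-/

set_option autoImplicit false

open scoped BigOperators
open Finset Pool.Agent.TH235.PP

namespace Pool.Agent.Results.MP_e4acd5_mp.PerturbedProduct

/-- the interaction `- X_(0,0)` on the `n × n` box: the entry is `-1` for the pairs of configurations which
differ exactly at the site `(0,0)`, and `0` otherwise -/
noncomputable def minusX (n : ℕ) : BoxOp 2 n := fun p q =>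
  if ∀ x : Fin n × Fin n, q x = if (x.1 : ℕ) = 0 ∧ (x.2 : ℕ) = 0 then p x + 1 else p x then -1 else 0

/-- For every range `n` and every exponent `κ > 0` there are `δ, C > 0` such that every Hermitian
interaction `h` on the `n × n` box which is `δ`-close to `- X_(0,0)` has, on all tori of side `L ≥ n`, a unique
ground state `Ψ` (a unit vector) with a gap of at least `1`, and for all `0 < ε ≤ 1` there is a PEPS `φ` of bond
dimension `D ≤ C (L / ε)^κ` with `‖φ - Ψ‖ ≤ ε`. -/
theorem result (n : ℕ) (hn : 1 ≤ n) (κ : ℝ) (hκ : 0 < κ) : ∃ δ C : ℝ, 0 < δ ∧ 0 < C ∧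
    ∀ h : BoxOp 2 n, h.IsHermitian → (∀ p q, ‖h p q - minusX n p q‖ ≤ δ) →
      ∀ (L : ℕ) [NeZero L], n ≤ L → ∃ Ψ : (Site L → Fin 2) → ℂ, normSq Ψ = 1 ∧
        IsGappedGround (ham h L) 1 Ψ ∧
        ∀ ε : ℝ, 0 < ε → ε ≤ 1 → ∃ (D : ℕ) (φ : (Site L → Fin 2) → ℂ),
          (D : ℝ) ≤ C * ((L : ℝ) / ε) ^ κ ∧ IsPEPS D φ ∧ normSq (φ - Ψ) ≤ ε ^ 2 := by
  obtain ⟨δ, C, hδ, hC, h⟩ := Pool.Agent.Q234.KT.final n κ hn hκ
  exact ⟨δ, C, hδ, hC, fun g hg hc L _ hL => h g hg hc L hL⟩

end Pool.Agent.Results.MP_e4acd5_mp.PerturbedProduct
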